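import Pool.Agent.L0h31.GT.Stm

/-!
# The integral of an alternant over the box of interlacing rows (helper24)
-/

set_option autoImplicit false

open MeasureTheory Filter Topology

namespace Pool.Agent.L0h24.GT

open Pool.Agent.L0h31.GT

theorem IB_eq {n : ℕ} (l : Fin (n + 1) → ℝ) :
    IB l = Set.pi Set.univ (fun j : Fin n => Set.Icc (l j.castSucc) (l j.succ)) := by
  ext μ
  simp only [IB, Set.mem_pi, Set.mem_ofPred_eq, Set.mem_univ, forall_true_left, Set.mem_Icc]

theorem int_prod_pow {n : ℕ} (l : Fin (n + 1) → ℝ) (hl : Monotone l) (e : Fin n → ℕ) :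
    ∫ μ in IB l, ∏ i, μ i ^ e i =
      ∏ i : Fin n, (l i.succ ^ (e i + 1) - l i.castSucc ^ (e i + 1)) / ((e i : ℝ) + 1) := by
  have h1 : ∀ μ : Fin n → ℝ, (IB l).indicator (fun μ : Fin n → ℝ => ∏ i, μ i ^ e i) μ =
      ∏ i, (Set.Icc (l i.castSucc) (l i.succ)).indicator (fun t : ℝ => t ^ e i) (μ i) := by
    intro μ
    by_cases h : μ ∈ IB l
    · rw [Set.indicator_of_mem h]
      refine Finset.prod_congr rfl fun i _ => ?_
      rw [Set.indicator_of_mem]
      exact h i
    · rw [Set.indicator_of_notMem h]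
      have h2 : ∃ i, μ i ∉ Set.Icc (l i.castSucc) (l i.succ) := by
        by_contra hc
        push Not at hc
        exact h fun i => hc i
      obtain ⟨i, hi⟩ := h2
      symm
      refine Finset.prod_eq_zero (Finset.mem_univ i) ?_
      rw [Set.indicator_of_notMem hi]
  have hm : MeasurableSet (IB l) := by
    rw [IB_eq]
    exact MeasurableSet.univ_pi fun i => measurableSet_Icc
  rw [← integral_indicator hm]
  simp_rw [h1]
  rw [integral_fintype_prod_volume_eq_prod
    (fun (i : Fin n) (t : ℝ) => (Set.Icc (l i.castSucc) (l i.succ)).indicator (fun t : ℝ => t ^ e i) t)]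
  refine Finset.prod_congr rfl fun i _ => ?_
  rw [integral_indicator measurableSet_Icc, integral_Icc_eq_integral_Ioc,
    ← intervalIntegral.integral_of_le (hl (Fin.castSucc_le_succ i)), integral_pow]

theorem intOn_prod_pow {n : ℕ} (l : Fin (n + 1) → ℝ) (e : Fin n → ℕ) :
    IntegrableOn (fun μ : Fin n → ℝ => ∏ i, μ i ^ e i) (IB l) := by
  have hc : IsCompact (IB l) := by
    rw [IB_eq]
    exact isCompact_univ_pi fun i => isCompact_Icc
  exact ContinuousOn.integrableOn_compact hc (by fun_prop)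

theorem alt_cons {n : ℕ} (e : Fin n → ℕ) (l : Fin (n + 1) → ℝ) :
    alt (Fin.cons 0 fun k => e k + 1) l =
      (Matrix.of fun i k : Fin n => l i.succ ^ (e k + 1) - l i.castSucc ^ (e k + 1)).det := by
  unfold alt
  have h1 : (Matrix.of fun i k => l i ^ ((Fin.cons 0 fun k => e k + 1 : Fin (n + 1) → ℕ) k)).det =
      (Matrix.of fun (i k : Fin (n + 1)) => (Fin.cases (motive := fun _ => ℝ)
        (l 0 ^ ((Fin.cons 0 fun k => e k + 1 : Fin (n + 1) → ℕ) k))
        (fun i : Fin n => l i.succ ^ ((Fin.cons 0 fun k => e k + 1 : Fin (n + 1) → ℕ) k) -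
          l i.castSucc ^ ((Fin.cons 0 fun k => e k + 1 : Fin (n + 1) → ℕ) k)) i : ℝ)).det := by
    refine Matrix.det_eq_of_forall_row_eq_smul_add_pred (fun _ => 1) ?_ ?_
    · intro j
      simp
    · intro i j
      simp
  rw [h1, Matrix.det_succ_column_zero, Fin.sum_univ_succ]
  simp only [Matrix.of_apply, Fin.cases_succ, Fin.cases_zero, Fin.cons_zero, pow_zero, sub_self, mul_zero,
    zero_mul, Finset.sum_const_zero, add_zero, Fin.val_zero, one_mul]
  congr 1

theorem t_DINT : S_DINT := by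
  intro n e l hl
  have h1 : ∀ μ : Fin n → ℝ, alt e μ =
      ∑ σ : Equiv.Perm (Fin n), (((Equiv.Perm.sign σ : ℤˣ) : ℤ) : ℝ) * ∏ i, μ i ^ e (σ i) := by
    intro μ
    unfold alt
    rw [← Matrix.det_transpose, Matrix.det_apply']
    rfl
  simp_rw [h1]
  rw [integral_finsetSum _ fun σ _ => (intOn_prod_pow l fun i => e (σ i)).const_mul _]
  simp_rw [integral_const_mul, int_prod_pow l hl]
  rw [alt_cons, ← Matrix.det_mul_row, ← Matrix.det_transpose, Matrix.det_apply']
  refine Finset.sum_congr rfl fun σ _ => ?_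
  congr 1
  refine Finset.prod_congr rfl fun i _ => ?_
  simp only [Matrix.transpose_apply, Matrix.of_apply]
  ring

end Pool.Agent.L0h24.GT
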