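import Pool.Agent.L0h31.GT.Stm

/-!
# Fubini for the order polytope with an additional chain (helper24)
-/

set_option autoImplicit false

open MeasureTheory Filter Topology

namespace Pool.Agent.L0h24.GT

open Pool.Agent.L0h31.GT

theorem isClosed_OB {ι : Type} [Fintype ι] (R : ι → ι → Prop) (a b : ι → ℝ) : IsClosed (OB R a b) := by
  have h : OB R a b = (⋂ i, {x : ι → ℝ | a i ≤ x i ∧ x i ≤ b i}) ∩
      ⋂ i, ⋂ j, ⋂ (_ : R i j), {x : ι → ℝ | x i ≤ x j} := by
    ext x
    simp [OB]
  rw [h]
  refine IsClosed.inter (isClosed_iInter fun i => ?_)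
    (isClosed_iInter fun i => isClosed_iInter fun j => isClosed_iInter fun _ => ?_)
  · exact (isClosed_le continuous_const (continuous_apply i)).inter
      (isClosed_le (continuous_apply i) continuous_const)
  · exact isClosed_le (continuous_apply i) (continuous_apply j)

theorem isCompact_OB {ι : Type} [Fintype ι] (R : ι → ι → Prop) (a b : ι → ℝ) : IsCompact (OB R a b) := by
  refine IsCompact.of_isClosed_subset (isCompact_univ_pi fun i => isCompact_Icc (a := a i) (b := b i))
    (isClosed_OB R a b) ?_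
  intro x hx i _
  exact hx.1 i

theorem isClosed_Ch {ι : Type} [Fintype ι] (a b : ι → ℝ) (N : ℕ) (x : ι → ℝ) : IsClosed (Ch a b N x) := by
  have h : Ch a b N x = (⋂ j, {c : Fin N → ℝ | 0 ≤ c j ∧ c j ≤ 1}) ∩
      ((⋂ j, ⋂ k, ⋂ (_ : j ≤ k), {c : Fin N → ℝ | c j ≤ c k}) ∩
      ⋂ i, ⋂ j : Fin N, ((⋂ (_ : N * b i ≤ (j : ℝ)), {c : Fin N → ℝ | x i ≤ c j}) ∩
        ⋂ (_ : (j : ℝ) + 1 ≤ N * a i), {c : Fin N → ℝ | c j ≤ x i})) := by
    ext c
    simp [Ch]
  rw [h]
  refine IsClosed.inter (isClosed_iInter fun i => ?_) (IsClosed.inter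
    (isClosed_iInter fun i => isClosed_iInter fun j => isClosed_iInter fun _ => ?_)
    (isClosed_iInter fun i => isClosed_iInter fun j => IsClosed.inter (isClosed_iInter fun _ => ?_)
      (isClosed_iInter fun _ => ?_)))
  · exact (isClosed_le continuous_const (continuous_apply i)).inter
      (isClosed_le (continuous_apply i) continuous_const)
  · exact isClosed_le (continuous_apply i) (continuous_apply j)
  · exact isClosed_le continuous_const (continuous_apply j)
  · exact isClosed_le (continuous_apply j) continuous_const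

theorem mem_OB_RN {ι : Type} (R : ι → ι → Prop) (a b : ι → ℝ) (N : ℕ) (z : ι ⊕ Fin N → ℝ) :
    z ∈ OB (RN R a b N) (fun _ => 0) (fun _ => 1) ↔
      (fun i => z (Sum.inl i)) ∈ OB R (fun _ => 0) (fun _ => 1) ∧
      (fun j => z (Sum.inr j)) ∈ Ch a b N (fun i => z (Sum.inl i)) := by
  constructor
  · rintro ⟨h1, h2⟩
    refine ⟨⟨fun i => h1 _, fun i j hij => h2 (Sum.inl i) (Sum.inl j) hij⟩,
      fun j => h1 _, fun j k hjk => h2 (Sum.inr j) (Sum.inr k) hjk, fun i j => ⟨fun h => ?_, fun h => ?_⟩⟩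
    · exact h2 (Sum.inl i) (Sum.inr j) h
    · exact h2 (Sum.inr j) (Sum.inl i) h
  · rintro ⟨⟨h1, h2⟩, h3, h4, h5⟩
    refine ⟨?_, ?_⟩
    · rintro (i | j)
      · exact h1 i
      · exact h3 j
    · rintro (i | j) (i' | j') h
      · exact h2 i i' h
      · exact (h5 i j').1 h
      · exact (h5 i' j).2 h
      · exact h4 j j' h

theorem t_FUB : S_FUB := by
  intro ι _ _ R a b N F hF
  set K : Set (ι ⊕ Fin N → ℝ) := OB (RN R a b N) (fun _ => 0) (fun _ => 1) with hK
  set L : Set (ι → ℝ) := OB R (fun _ => 0) (fun _ => 1) with hL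
  have hKm : MeasurableSet K := (isClosed_OB _ _ _).measurableSet
  have hLm : MeasurableSet L := (isClosed_OB _ _ _).measurableSet
  have hKi : IntegrableOn (fun z : ι ⊕ Fin N → ℝ => F (fun i => z (Sum.inl i))) K :=
    ContinuousOn.integrableOn_compact (isCompact_OB _ _ _) (by fun_prop)
  have hmp := volume_measurePreserving_sumPiEquivProdPi (fun _ : ι ⊕ Fin N => ℝ)
  set g : (ι → ℝ) × (Fin N → ℝ) → ℝ := fun p =>
    K.indicator (fun z : ι ⊕ Fin N → ℝ => F (fun i => z (Sum.inl i))) (Sum.elim p.1 p.2) with hg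
  have hcomp : ∀ z : ι ⊕ Fin N → ℝ, K.indicator (fun z : ι ⊕ Fin N → ℝ => F (fun i => z (Sum.inl i))) z =
      g (MeasurableEquiv.sumPiEquivProdPi (fun _ : ι ⊕ Fin N => ℝ) z) := by
    intro z
    simp only [hg]
    congr 1
    ext i
    rcases i with i | j <;> rfl
  have h1 : ∫ z in K, F (fun i => z (Sum.inl i)) = ∫ p, g p := by
    rw [← integral_indicator hKm, ← hmp.integral_comp
      (MeasurableEquiv.sumPiEquivProdPi (fun _ : ι ⊕ Fin N => ℝ)).measurableEmbedding]
    exact integral_congr_ae (Eventually.of_forall hcomp)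
  have hgi : Integrable g := by
    rw [← hmp.integrable_comp_emb
      (MeasurableEquiv.sumPiEquivProdPi (fun _ : ι ⊕ Fin N => ℝ)).measurableEmbedding]
    have := (integrable_indicator_iff hKm).2 hKi
    exact this.congr (Eventually.of_forall hcomp)
  have h2 : ∫ p, g p = ∫ x, ∫ c, g (x, c) := integral_prod g hgi
  rw [h1, h2, ← integral_indicator hLm]
  refine integral_congr_ae (Eventually.of_forall fun x => ?_)
  have hCm : MeasurableSet (Ch a b N x) := (isClosed_Ch a b N x).measurableSet
  have h3 : ∀ c : Fin N → ℝ, g (x, c) = L.indicator (fun x => F x) x * (Ch a b N x).indicator (fun _ => 1) c := by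
    intro c
    simp only [hg]
    by_cases h : (Sum.elim x c : ι ⊕ Fin N → ℝ) ∈ K
    · have h' := (mem_OB_RN R a b N _).1 h
      simp only [Sum.elim_inl, Sum.elim_inr] at h'
      rw [Set.indicator_of_mem h, Set.indicator_of_mem h'.1, Set.indicator_of_mem h'.2]
      simp
    · rw [Set.indicator_of_notMem h]
      by_cases hx : x ∈ L
      · have hc : c ∉ Ch a b N x := fun hc => h ((mem_OB_RN R a b N _).2 ⟨hx, hc⟩)
        rw [Set.indicator_of_notMem hc]
        simp
      · rw [Set.indicator_of_notMem hx]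
        simp
  show ∫ c, g (x, c) = L.indicator (fun x => F x * (volume (Ch a b N x)).toReal) x
  simp_rw [h3]
  rw [integral_const_mul, integral_indicator hCm]
  by_cases hx : x ∈ L
  · rw [Set.indicator_of_mem hx, Set.indicator_of_mem hx]
    simp [Measure.real]
  · rw [Set.indicator_of_notMem hx, Set.indicator_of_notMem hx]
    simp

end Pool.Agent.L0h24.GT
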